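import Pool.Agent.Y877.SxL

/-!
# Representations `n = k + m` with `p_k ^ 2 + h₁`, `p_m ^ 2 + h₂`, `p_{p_m} ^ 2 + h₃` prime
-/

set_option autoImplicit false

open Finset

namespace Pool.Agent.Results.MP_04ff0f_nt.SquareShiftTriples

/-- the `k`-th prime, `p 1 = 2` -/
noncomputable def p (k : ℕ) : ℕ := Nat.nth Nat.Prime (k - 1)

/-- the product of `1 - 1/q` over the primes `q ≤ y` -/
noncomputable def V (y : ℕ) : ℝ := ∏ q ∈ (Icc 1 y).filter Nat.Prime, (1 - 1 / (q : ℝ))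

/-- the `k ∈ K` such that `p_k ^ 2 + h₁`, `p_m ^ 2 + h₂` and `p_{p_m} ^ 2 + h₃` are prime, where `m = n - k` -/
noncomputable def Good3 (n : ℕ) (K : Finset ℕ) (h₁ h₂ h₃ : ℕ) : Finset ℕ :=
  K.filter (fun k => (p k ^ 2 + h₁).Prime ∧ ((p (n - k) ^ 2 + h₂).Prime ∧ (p (p (n - k)) ^ 2 + h₃).Prime))

theorem nth_inj : Function.Injective (Nat.nth Nat.Prime) := Nat.nth_injective Nat.infinite_setOfPred_prime

theorem p_inj (n : ℕ) : Set.InjOn p (Ioo 0 n : Finset ℕ) := by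
  intro a ha b hb hab
  rw [mem_coe, mem_Ioo] at ha hb
  have := nth_inj hab
  omega

theorem pm_inj (n : ℕ) : Set.InjOn (fun k => p (n - k)) (Ioo 0 n : Finset ℕ) := by
  intro a ha b hb hab
  rw [mem_coe, mem_Ioo] at ha hb
  have := nth_inj hab
  omega

theorem pp_inj (n : ℕ) : Set.InjOn (fun k => p (p (n - k))) (Ioo 0 n : Finset ℕ) := by
  intro a ha b hb hab
  rw [mem_coe, mem_Ioo] at ha hb
  have h1 := nth_inj hab
  have h2 : 2 ≤ p (n - a) := (Nat.prime_nth_prime _).two_le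
  have h3 : 2 ≤ p (n - b) := (Nat.prime_nth_prime _).two_le
  have h4 : p (n - a) = p (n - b) := by omega
  have h5 := nth_inj h4
  omega

/-- For all `A`, `C` and `0 < ε ≤ 1` there is `K₀` such that for every `K₁` and every large `n`, every `y` between
`K₀ log log n` and `K₁ log log n`, with `M` the product of the primes `≤ y`, and all windows `(g i, g i + G i]`,
`i = 0, 1, 2`, with `M (g i + G i) ≤ n ^ 2`, `G i ≥ n ^ 2 / (M log ^ C n)`: for every set `K` of at least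
`n / log ^ A n` integers `0 < k < n`, for all but at most `ε G 0 G 1 G 2` of the triples `(a, b, c)`, `a ≤ G 0`, `b ≤ G 1`,
`c ≤ G 2`, the three numbers `p_k ^ 2 + M (g 0 + a)`, `p_m ^ 2 + M (g 1 + b)`, `p_{p_m} ^ 2 + M (g 2 + c)`, `m = n - k`, are
prime for at least `(1 - ε) #K / (2 V y log n) ^ 3` elements `k` of `K`. -/
theorem result : ∀ (A C : ℕ) (ε : ℝ), 0 < ε → ε ≤ 1 → ∃ K₀ : ℕ, ∀ K₁ : ℕ, ∃ n₀ : ℕ, ∀ n : ℕ, n₀ ≤ n →
    ∀ y : ℕ, K₀ * Real.log (Real.log n) ≤ y → y ≤ K₁ * Real.log (Real.log n) →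
    ∀ g G : Fin 3 → ℕ, (∀ i, primorial y * (g i + G i) ≤ n ^ 2) → (∀ i, (n : ℝ) ^ 2 ≤ primorial y * G i * Real.log n ^ C) →
    ∀ K : Finset ℕ, K ⊆ Ioo 0 n → (n : ℝ) ≤ K.card * Real.log n ^ A →
      (((Icc 1 (G 0) ×ˢ (Icc 1 (G 1) ×ˢ Icc 1 (G 2))).filter (fun t => ((Good3 n K (primorial y * (g 0 + t.1))
        (primorial y * (g 1 + t.2.1)) (primorial y * (g 2 + t.2.2))).card : ℝ) <
        (1 - ε) * (K.card / (2 * V y * Real.log n) ^ 3))).card : ℝ) ≤ ε * (G 0 * G 1 * G 2) := by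
  intro A C ε hε hε1
  obtain ⟨K₀, hK₀⟩ := Pool.Agent.Y877.SX.step3 2 2 2 (Or.inr rfl) (Or.inr rfl) (Or.inr rfl) A 5 C ε hε hε1
  refine ⟨K₀, fun K₁ => ?_⟩
  obtain ⟨n2, hn2⟩ := hK₀ K₁
  obtain ⟨n3, hn3⟩ := Pool.Agent.H373R2.T7.ev_L' 1
  obtain ⟨n4, hn4⟩ := Pool.Agent.Y877.SX.nth_le_log
  obtain ⟨n5, hn5⟩ := Pool.Agent.Y877.SX.nth_nth_le_log
  refine ⟨max n2 (max n3 (max n4 n5)), fun n hn y hy1 hy2 g G hg1 hg2 K hK hKc => ?_⟩
  have b2 : n2 ≤ n := le_trans (le_max_left _ _) hn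
  have b3 : n3 ≤ n := le_trans (le_trans (le_max_left _ _) (le_max_right _ _)) hn
  have b4 : n4 ≤ n := le_trans (le_trans (le_trans (le_max_left _ _) (le_max_right _ _)) (le_max_right _ _)) hn
  have b5 : n5 ≤ n := le_trans (le_trans (le_trans (le_max_right _ _) (le_max_right _ _)) (le_max_right _ _)) hn
  have hL1 := hn3 n b3
  have f1 : ∀ k ∈ Ioo 0 n, (p k).Prime ∧ (p k : ℝ) ≤ n * Real.log n ^ 5 := by
    intro k hk
    rw [mem_Ioo] at hk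
    refine ⟨Nat.prime_nth_prime _, (hn4 n b4 (k - 1) (by omega)).trans ?_⟩
    apply mul_le_mul_of_nonneg_left _ (Nat.cast_nonneg _)
    exact pow_le_pow_right₀ hL1 (by norm_num)
  have f2 : ∀ k ∈ Ioo 0 n, (p (n - k)).Prime ∧ (p (n - k) : ℝ) ≤ n * Real.log n ^ 5 := by
    intro k hk
    rw [mem_Ioo] at hk
    refine ⟨Nat.prime_nth_prime _, (hn4 n b4 (n - k - 1) (by omega)).trans ?_⟩
    apply mul_le_mul_of_nonneg_left _ (Nat.cast_nonneg _)
    exact pow_le_pow_right₀ hL1 (by norm_num)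
  have f3 : ∀ k ∈ Ioo 0 n, (p (p (n - k))).Prime ∧ (p (p (n - k)) : ℝ) ≤ n * Real.log n ^ 5 := by
    intro k hk
    rw [mem_Ioo] at hk
    exact ⟨Nat.prime_nth_prime _, hn5 n b5 (n - k - 1) (by omega)⟩
  have h1 := hn2 n b2 y hy1 hy2 K hKc p (fun k => p (n - k)) (fun k => p (p (n - k))) ((p_inj n).mono (by exact_mod_cast hK))
    ((pm_inj n).mono (by exact_mod_cast hK)) ((pp_inj n).mono (by exact_mod_cast hK)) (fun k hk => f1 k (hK hk))
    (fun k hk => f2 k (hK hk)) (fun k hk => f3 k (hK hk)) (g 0) (G 0) (g 1) (G 1) (g 2) (G 2) (hg1 0) (hg2 0) (hg1 1) (hg2 1)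
    (hg1 2) (hg2 2)
  refine le_trans (le_of_eq ?_) (h1.trans (le_of_eq (by ring)))
  congr 2
  apply filter_congr
  intro t _
  have e1 : (Pool.Agent.H373R2.T7.Vz y * (((2 : ℕ) : ℝ) * Real.log n)) * ((Pool.Agent.H373R2.T7.Vz y * (((2 : ℕ) : ℝ) * Real.log n)) *
      (Pool.Agent.H373R2.T7.Vz y * (((2 : ℕ) : ℝ) * Real.log n))) = (2 * V y * Real.log n) ^ 3 := by
    have : Pool.Agent.H373R2.T7.Vz y = V y := rfl
    rw [this]
    push_cast
    ring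
  rw [e1]
  rfl

end Pool.Agent.Results.MP_04ff0f_nt.SquareShiftTriples
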